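import Pool.Agent.H466.HP.Stm
import Pool.Graph.R_seed8.H370R2.PC3

/-!
HP-VAR (for helper466): small variation of `P` on the cone for most points.
-/

set_option autoImplicit false

namespace Pool.Agent.H332.HP

open Complex MeasureTheory Set Filter Topology
open Pool.Agent.H862.VK (Yz)
open Pool.Agent.H466.HP

/-! ### the sum `Q` -/

/-- the terms of `Q` -/
noncomputable def qt (U x t : ℝ) (b : Zr) : ℝ :=
  mu b * Real.exp (U * |(b : ℂ).re|) * Real.exp (-((b : ℂ).im - t) ^ 2 / 2) /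
    (x + |(b : ℂ).im - t|) ^ 2

theorem qt_nonneg (U x t : ℝ) (b : Zr) : 0 ≤ qt U x t b := by
  unfold qt mu
  positivity

theorem Q_eq (U x t : ℝ) : Q U x t = ∑' b : Zr, qt U x t b := rfl

theorem Q_nonneg (U x t : ℝ) : 0 ≤ Q U x t := tsum_nonneg (qt_nonneg U x t)

theorem Q_mono {U x y t : ℝ} (hy : 0 < y) (hyx : y ≤ x) : Q U x t ≤ Q U y t := by
  have hx : 0 < x := lt_of_lt_of_le hy hyx
  have h1 : ∀ b, qt U x t b ≤ qt U y t b := by
    intro b
    unfold qt mu
    have ha : 0 ≤ |(b : ℂ).im - t| := abs_nonneg _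
    gcongr
  have h2 : ∀ b, qt U y t b ≤ (x / y) ^ 2 * qt U x t b := by
    intro b
    unfold qt
    have hn : 0 ≤ mu b * Real.exp (U * |(b : ℂ).re|) * Real.exp (-((b : ℂ).im - t) ^ 2 / 2) := by
      unfold mu; positivity
    have ha : 0 ≤ |(b : ℂ).im - t| := abs_nonneg _
    obtain ⟨a, hadef⟩ : ∃ a, a = |(b : ℂ).im - t| := ⟨_, rfl⟩
    obtain ⟨N, hN⟩ : ∃ N, N = mu b * Real.exp (U * |(b : ℂ).re|) *
      Real.exp (-((b : ℂ).im - t) ^ 2 / 2) := ⟨_, rfl⟩
    rw [← hN] at hn ⊢
    rw [← hadef] at ha ⊢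
    have h3 : x + a ≤ x / y * (y + a) := by
      rw [div_mul_eq_mul_div, le_div_iff₀ hy]
      nlinarith
    have h4 : (x + a) ^ 2 ≤ (x / y * (y + a)) ^ 2 := pow_le_pow_left₀ (by positivity) h3 2
    have h5 : 0 < (x + a) ^ 2 := by positivity
    have h6 : 0 < (y + a) ^ 2 := by positivity
    rw [mul_div_assoc', div_le_div_iff₀ h6 h5]
    calc N * (x + a) ^ 2 ≤ N * (x / y * (y + a)) ^ 2 := mul_le_mul_of_nonneg_left h4 hn
      _ = _ := by ring
  rw [Q_eq, Q_eq]
  by_cases hs : Summable (qt U x t)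
  · have hs' : Summable (qt U y t) :=
      Summable.of_nonneg_of_le (qt_nonneg U y t) h2 (hs.mul_left _)
    exact hs.tsum_le_tsum h1 hs'
  · have hs' : ¬ Summable (qt U y t) := fun h =>
      hs (Summable.of_nonneg_of_le (qt_nonneg U x t) h1 h)
    rw [tsum_eq_zero_of_not_summable hs, tsum_eq_zero_of_not_summable hs']

/-! ### elementary integrals -/

theorem exp_lip {a b : ℂ} (ha : a.re ≤ 0) (hb : b.re ≤ 0) : ‖cexp a - cexp b‖ ≤ ‖a - b‖ := by
  have hc : Convex ℝ {z : ℂ | z.re ≤ 0} := convex_halfSpace_re_le 0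
  have h := hc.norm_image_sub_le_of_norm_deriv_le (f := cexp) (C := 1)
    (fun x _ => Complex.differentiableAt_exp) (fun x hx => by
      rw [Complex.deriv_exp, Complex.norm_exp]
      exact Real.exp_le_one_iff.2 hx) hb ha
  rwa [one_mul] at h

theorem int_exp {U y : ℝ} (hU : 0 ≤ U) (hy : 0 < y) :
    ∫ u in (0 : ℝ)..U, Real.exp (-(u * y)) ≤ 1 / y := by
  have h1 : ∫ u in (0 : ℝ)..U, Real.exp (-(u * y)) =
      (-(Real.exp (-(U * y)) / y)) - (-(Real.exp (-(0 * y)) / y)) := by
    refine intervalIntegral.integral_eq_sub_of_hasDerivAt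
      (f := fun u : ℝ => -(Real.exp (-(u * y)) / y)) (fun u _ => ?_) ?_
    · have h2 : HasDerivAt (fun u : ℝ => -(u * y)) (-(1 * y)) u :=
        ((hasDerivAt_id' u).mul_const y).neg
      have h3 := (h2.exp.div_const y).neg
      refine h3.congr_deriv ?_
      field_simp
    · apply Continuous.intervalIntegrable
      fun_prop
  rw [h1]
  have h4 := Real.exp_pos (-(U * y))
  have h5 : 0 < Real.exp (-(U * y)) / y := by positivity
  simp only [zero_mul, neg_zero, Real.exp_zero]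
  linarith

theorem int_gauss {U : ℝ} (hU : 0 ≤ U) :
    ∫ u in (0 : ℝ)..U, u * Real.exp (-u ^ 2 / 2) ≤ 1 := by
  have h1 : ∫ u in (0 : ℝ)..U, u * Real.exp (-u ^ 2 / 2) =
      (-(Real.exp (-U ^ 2 / 2))) - (-(Real.exp (-(0 : ℝ) ^ 2 / 2))) := by
    refine intervalIntegral.integral_eq_sub_of_hasDerivAt
      (f := fun u : ℝ => -(Real.exp (-u ^ 2 / 2))) (fun u _ => ?_) ?_
    · have h2 : HasDerivAt (fun u : ℝ => -u ^ 2 / 2) (-u) u := by
        have h := ((hasDerivAt_pow 2 u).neg).div_const 2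
        refine h.congr_deriv ?_
        simp
        ring
      have h3 := h2.exp.neg
      refine h3.congr_deriv ?_
      ring
    · apply Continuous.intervalIntegrable
      fun_prop
  rw [h1]
  have h4 := Real.exp_pos (-U ^ 2 / 2)
  simp only [ne_eq, OfNat.ofNat_ne_zero, not_false_eq_true, zero_pow, neg_zero, zero_div,
    Real.exp_zero]
  linarith

theorem wt_nonneg {U u : ℝ} (hU : 0 < U) (hu : u ≤ U) : 0 ≤ wt U u := by
  unfold wt
  refine le_min zero_le_one ?_
  have : u / U ≤ 1 := (div_le_one hU).2 hu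
  linarith

theorem wt_le (U u : ℝ) : wt U u ≤ 1 := min_le_left _ _

theorem wt_cont (U : ℝ) : Continuous (wt U) := by
  unfold wt
  fun_prop

/-- continuity of the prime side -/
theorem PP_contOn (t U : ℝ) : ContinuousOn (fun u => H370.PP H370.A2.lamC u t) (Iic U) := by
  have ha : ∀ n, ‖H370.A2.lamC n‖ ≤ ArithmeticFunction.vonMangoldt n := fun n =>
    (H370.A2.lamC_norm n).le
  simp_rw [H370.PP_eq]
  refine continuousOn_tsum (u := fun n : ℕ => 2 * Real.exp (2 + 2 * U) * (1 / (n : ℝ) ^ 2))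
    (fun n => ?_) (H370.sum_inv_sq.mul_left _) (fun n u hu => ?_)
  · unfold H370.pterm
    apply Continuous.continuousOn
    fun_prop
  · rw [H370.norm_pterm]
    refine (H370.pt_le ha u n).trans ?_
    have : u ≤ U := hu
    gcongr

/-- the variation of the truncated Laplace transform -/
theorem SU_diff {U t L C y : ℝ} {z z' : ℂ} (hU : 0 < U) (hL : 0 ≤ L) (hy : 0 < y)
    (hz : y ≤ z.re) (hz' : y ≤ z'.re) (hC : 0 ≤ C)
    (h : ∀ u : ℝ, 0 ≤ u → u ≤ U →
      ‖G u t - (1 / Real.sqrt (2 * Real.pi) : ℝ) * (L * cexp (I * u * t) *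
        Real.exp (-u ^ 2 / 2) - H370.PP H370.A2.lamC u t)‖ ≤ C) :
    ‖SU U z t - SU U z' t‖ ≤ (1 / Real.sqrt (2 * Real.pi)) * (L * ‖z - z'‖) +
      (1 / Real.sqrt (2 * Real.pi)) * ‖Dp U z t - Dp U z' t‖ + 2 * C / y := by
  obtain ⟨c, hc⟩ : ∃ c : ℝ, c = 1 / Real.sqrt (2 * Real.pi) := ⟨_, rfl⟩
  have hc0 : 0 ≤ c := by rw [hc]; positivity
  rw [← hc] at h ⊢
  -- the integrands
  have hint : ∀ z z' : ℂ, IntervalIntegrable (fun u : ℝ => (wt U u : ℂ) * cexp (-(u * z)) * G u t)
      volume 0 U → IntervalIntegrable (fun u : ℝ => (wt U u : ℂ) * cexp (-(u * z')) * G u t)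
      volume 0 U := by
    intro z z' hi
    have hcont : Continuous (fun u : ℝ => cexp (u * (z - z'))) := by fun_prop
    refine (hi.mul_continuousOn hcont.continuousOn).congr ?_
    intro u _
    simp only
    have : cexp (-(u * z')) = cexp (-(u * z)) * cexp (u * (z - z')) := by
      rw [← Complex.exp_add]; congr 1; ring
    rw [this]; ring
  have hnn : 0 ≤ c * (L * ‖z - z'‖) + c * ‖Dp U z t - Dp U z' t‖ + 2 * C / y := by positivity
  by_cases hi : IntervalIntegrable (fun u : ℝ => (wt U u : ℂ) * cexp (-(u * z)) * G u t)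
      volume 0 U
  swap
  · have hi' : ¬ IntervalIntegrable (fun u : ℝ => (wt U u : ℂ) * cexp (-(u * z')) * G u t)
      volume 0 U := fun h' => hi (hint z' z h')
    have e1 : SU U z t = 0 := intervalIntegral.integral_undef hi
    have e2 : SU U z' t = 0 := intervalIntegral.integral_undef hi'
    rw [e1, e2, sub_zero, norm_zero]
    exact hnn
  have hi' := hint z z' hi
  -- continuity of the pieces
  have hwt : Continuous (fun u : ℝ => (wt U u : ℂ)) := Complex.continuous_ofReal.comp (wt_cont U)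
  have hPP : ContinuousOn (fun u => H370.PP H370.A2.lamC u t) (uIcc 0 U) :=
    (PP_contOn t U).mono (by rw [uIcc_of_le hU.le]; exact Icc_subset_Iic_self)
  have hDi : ∀ z : ℂ, IntervalIntegrable (fun u : ℝ => (wt U u : ℂ) * cexp (-(u * z)) *
      H370.PP H370.A2.lamC u t) volume 0 U := by
    intro z
    apply ContinuousOn.intervalIntegrable
    refine ContinuousOn.mul ?_ hPP
    apply Continuous.continuousOn
    exact hwt.mul (by fun_prop)
  -- the kernel
  obtain ⟨k, hk⟩ : ∃ k : ℝ → ℂ, k = fun u => (wt U u : ℂ) * (cexp (-(u * z)) - cexp (-(u * z'))) :=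
    ⟨_, rfl⟩
  have hkc : Continuous k := by
    rw [hk]
    exact hwt.mul (by fun_prop)
  have hkG : IntervalIntegrable (fun u => k u * G u t) volume 0 U := by
    refine (hi.sub hi').congr ?_
    intro u _
    simp only [hk]
    ring
  have hkP : IntervalIntegrable (fun u => k u * H370.PP H370.A2.lamC u t) volume 0 U := by
    refine ((hDi z).sub (hDi z')).congr ?_
    intro u _
    simp only [hk]
    ring
  obtain ⟨m, hm⟩ : ∃ m : ℝ → ℂ, m = fun u : ℝ => cexp (I * u * t) * (Real.exp (-u ^ 2 / 2) : ℂ) := ⟨_, rfl⟩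
  have hmc : Continuous m := by
    rw [hm]
    fun_prop
  have hkm : IntervalIntegrable (fun u => k u * m u) volume 0 U :=
    (hkc.mul hmc).intervalIntegrable _ _
  obtain ⟨e, he⟩ : ∃ e : ℝ → ℂ, e = fun u => G u t - (c : ℂ) * (L * m u -
    H370.PP H370.A2.lamC u t) := ⟨_, rfl⟩
  have hke : IntervalIntegrable (fun u => k u * e u) volume 0 U := by
    refine ((hkG.sub (hkm.const_mul (c * L))).add (hkP.const_mul c)).congr ?_
    intro u _
    simp only [he]
    ring
  have hS : SU U z t - SU U z' t = (c * L : ℂ) * (∫ u in (0 : ℝ)..U, k u * m u) -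
      (c : ℂ) * (Dp U z t - Dp U z' t) + ∫ u in (0 : ℝ)..U, k u * e u := by
    have s1 : SU U z t - SU U z' t = ∫ u in (0 : ℝ)..U, k u * G u t := by
      unfold SU
      rw [← intervalIntegral.integral_sub hi hi']
      refine intervalIntegral.integral_congr fun u _ => ?_
      simp only [hk]
      ring
    have s2 : Dp U z t - Dp U z' t = ∫ u in (0 : ℝ)..U, k u * H370.PP H370.A2.lamC u t := by
      unfold Dp
      rw [← intervalIntegral.integral_sub (hDi z) (hDi z')]
      refine intervalIntegral.integral_congr fun u _ => ?_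
      simp only [hk]
      ring
    rw [s1, s2, ← intervalIntegral.integral_const_mul, ← intervalIntegral.integral_const_mul,
      ← intervalIntegral.integral_sub (hkm.const_mul _) (hkP.const_mul _),
      ← intervalIntegral.integral_add ((hkm.const_mul _).sub (hkP.const_mul _)) hke]
    refine intervalIntegral.integral_congr fun u _ => ?_
    simp only [he]
    ring
  -- the main part
  have b1 : ‖∫ u in (0 : ℝ)..U, k u * m u‖ ≤ ‖z - z'‖ := by
    have g1 : ∀ u ∈ Ioc (0 : ℝ) U, ‖k u * m u‖ ≤ ‖z - z'‖ * (u * Real.exp (-u ^ 2 / 2)) := by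
      intro u hu
      have e1 : k u * m u = (wt U u : ℂ) * (cexp (-(u * (z - I * t))) - cexp (-(u * (z' - I * t)))) *
          (Real.exp (-u ^ 2 / 2) : ℂ) := by
        simp only [hk, hm]
        have a1 : cexp (-(u * (z - I * t))) = cexp (-(u * z)) * cexp (I * u * t) := by
          rw [← Complex.exp_add]; congr 1; ring
        have a2 : cexp (-(u * (z' - I * t))) = cexp (-(u * z')) * cexp (I * u * t) := by
          rw [← Complex.exp_add]; congr 1; ring
        rw [a1, a2]; ring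
      rw [e1, norm_mul, norm_mul, Complex.norm_real, Complex.norm_real,
        Real.norm_of_nonneg (wt_nonneg hU hu.2), Real.norm_of_nonneg (Real.exp_pos _).le]
      have e2 : ‖cexp (-(u * (z - I * t))) - cexp (-(u * (z' - I * t)))‖ ≤ u * ‖z - z'‖ := by
        refine (exp_lip ?_ ?_).trans (le_of_eq ?_)
        · simp only [neg_re, mul_re, ofReal_re, ofReal_im, sub_re, I_re, I_im, zero_mul,
            mul_zero, sub_zero, sub_self]
          have := hu.1
          nlinarith
        · simp only [neg_re, mul_re, ofReal_re, ofReal_im, sub_re, I_re, I_im, zero_mul,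
            mul_zero, sub_zero, sub_self]
          have := hu.1
          nlinarith
        · have : -((u : ℂ) * (z - I * t)) - -((u : ℂ) * (z' - I * t)) = -((u : ℂ) * (z - z')) := by
            ring
          rw [this, norm_neg, norm_mul, Complex.norm_real, Real.norm_of_nonneg hu.1.le]
      calc wt U u * ‖cexp (-(u * (z - I * t))) - cexp (-(u * (z' - I * t)))‖ *
            Real.exp (-u ^ 2 / 2) ≤ 1 * (u * ‖z - z'‖) * Real.exp (-u ^ 2 / 2) := by
            have := wt_le U u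
            have := hu.1
            gcongr
        _ = _ := by ring
    have g3 : IntervalIntegrable (fun u : ℝ => ‖z - z'‖ * (u * Real.exp (-u ^ 2 / 2))) volume 0 U := by
      apply Continuous.intervalIntegrable
      fun_prop
    have g2 := intervalIntegral.norm_integral_le_of_norm_le hU.le
      (Eventually.of_forall g1) g3
    refine g2.trans ?_
    rw [intervalIntegral.integral_const_mul]
    calc ‖z - z'‖ * ∫ u in (0 : ℝ)..U, u * Real.exp (-u ^ 2 / 2) ≤ ‖z - z'‖ * 1 :=
          mul_le_mul_of_nonneg_left (int_gauss hU.le) (norm_nonneg _)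
      _ = _ := mul_one _
  -- the error
  have b2 : ‖∫ u in (0 : ℝ)..U, k u * e u‖ ≤ 2 * C / y := by
    have g1 : ∀ u ∈ Ioc (0 : ℝ) U, ‖k u * e u‖ ≤ (2 * C) * Real.exp (-(u * y)) := by
      intro u hu
      have e0 : ‖e u‖ ≤ C := by
        have := h u hu.1.le hu.2
        rw [he, hm]
        simp only
        rw [← mul_assoc (L : ℂ)]
        exact this
      have e1 : ∀ w : ℂ, y ≤ w.re → ‖cexp (-(u * w))‖ ≤ Real.exp (-(u * y)) := by
        intro w hw
        rw [Complex.norm_exp]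
        apply Real.exp_le_exp.2
        simp only [neg_re, mul_re, ofReal_re, ofReal_im, zero_mul, sub_zero]
        have := hu.1
        nlinarith
      have e2 : ‖k u‖ ≤ 2 * Real.exp (-(u * y)) := by
        rw [hk]
        simp only
        rw [norm_mul, Complex.norm_real, Real.norm_of_nonneg (wt_nonneg hU hu.2)]
        have a1 := norm_sub_le (cexp (-(u * z))) (cexp (-(u * z')))
        have a2 := e1 z hz
        have a3 := e1 z' hz'
        have a4 := wt_le U u
        have a5 := norm_nonneg (cexp (-(u * z)) - cexp (-(u * z')))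
        calc wt U u * ‖cexp (-(u * z)) - cexp (-(u * z'))‖ ≤
              1 * ‖cexp (-(u * z)) - cexp (-(u * z'))‖ := mul_le_mul_of_nonneg_right a4 a5
          _ ≤ _ := by linarith
      rw [norm_mul]
      have a6 := norm_nonneg (e u)
      have a7 := Real.exp_pos (-(u * y))
      calc ‖k u‖ * ‖e u‖ ≤ (2 * Real.exp (-(u * y))) * C := by gcongr
        _ = _ := by ring
    have g3 : IntervalIntegrable (fun u : ℝ => (2 * C) * Real.exp (-(u * y))) volume 0 U := by
      apply Continuous.intervalIntegrable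
      fun_prop
    have g2 := intervalIntegral.norm_integral_le_of_norm_le hU.le
      (Eventually.of_forall g1) g3
    refine g2.trans ?_
    rw [intervalIntegral.integral_const_mul]
    calc 2 * C * ∫ u in (0 : ℝ)..U, Real.exp (-(u * y)) ≤ 2 * C * (1 / y) :=
          mul_le_mul_of_nonneg_left (int_exp hU.le hy) (by positivity)
      _ = _ := by ring
  rw [hS]
  have n1 := norm_add_le ((c * L : ℂ) * (∫ u in (0 : ℝ)..U, k u * m u) -
      (c : ℂ) * (Dp U z t - Dp U z' t)) (∫ u in (0 : ℝ)..U, k u * e u)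
  have n2 := norm_sub_le ((c * L : ℂ) * (∫ u in (0 : ℝ)..U, k u * m u))
      ((c : ℂ) * (Dp U z t - Dp U z' t))
  have n3 : ‖(c * L : ℂ) * (∫ u in (0 : ℝ)..U, k u * m u)‖ ≤ c * (L * ‖z - z'‖) := by
    rw [norm_mul, norm_mul, Complex.norm_real, Complex.norm_real, Real.norm_of_nonneg hc0,
      Real.norm_of_nonneg hL, mul_assoc]
    gcongr
  have n4 : ‖(c : ℂ) * (Dp U z t - Dp U z' t)‖ = c * ‖Dp U z t - Dp U z' t‖ := by
    rw [norm_mul, Complex.norm_real, Real.norm_of_nonneg hc0]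
  linarith

/-! ### the deterministic part -/

/-- the bound at a good point -/
theorem good_point {M κ C1 C2 C3 x1 A1 T t : ℝ} (hM : 1 ≤ M) (hκ : 0 < κ) (hC1 : 0 < C1)
    (hC2 : 0 < C2) (hC3 : 0 < C3) (hx0 : 0 < x1) (hx1 : x1 ≤ 1) (hxa : x1 ≤ κ / (20 * C1))
    (hxb : x1 ≤ κ / (10 * (1 + 2 * M))) (hA1 : 1 ≤ A1) (hA3 : 20 * C3 / κ ≤ A1)
    (hT : 10 ≤ T) (hL : 16 + A1 ≤ Real.log T) (ht : T ≤ t) (ht2 : t ≤ 2 * T)
    (hE1 : ∀ z ∈ Kt t (A1 / Real.log T) x1 M, ∀ z' ∈ Kt t (A1 / Real.log T) x1 M,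
      ‖(P z - P z') - (S z t - S z' t)‖ ≤ C1 * x1 * Real.log (2 + t))
    (hE2 : ∀ z ∈ Kt t (A1 / Real.log T) 1 M, ‖S z t - SU (Real.log T / 16) z t‖ ≤
      C2 * M ^ 2 / (Real.log T / 16) * Real.exp (-(z.re * (Real.log T / 16) / 2)) *
        Q (Real.log T / 16) z.re t)
    (hEF : ∀ u : ℝ, 0 ≤ u → u ≤ Real.log T / 2 →
      ‖G u t - (1 / Real.sqrt (2 * Real.pi) : ℝ) * (Real.log T * cexp (I * u * t) *
        Real.exp (-u ^ 2 / 2) - H370.PP H370.A2.lamC u t)‖ ≤ C3)
    (hQ : Q (Real.log T / 16) (A1 / Real.log T) t ≤ κ * Real.log T ^ 2 / (320 * C2 * M ^ 2))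
    (hD : ∀ z ∈ Kt t (A1 / Real.log T) 1 M, ‖Dp (Real.log T / 16) z t‖ ≤ κ * Real.log T / 10)
    {z z' : ℂ} (hz : z ∈ Kt t (A1 / Real.log T) x1 M) (hz' : z' ∈ Kt t (A1 / Real.log T) x1 M) :
    ‖P z - P z'‖ ≤ κ * Real.log T := by
  obtain ⟨L, hLd⟩ : ∃ L, L = Real.log T := ⟨_, rfl⟩
  rw [← hLd] at hL hE1 hE2 hEF hQ hD hz hz' ⊢
  have hL0 : 0 < L := by linarith
  have hy0 : 0 < A1 / L := by positivity
  have hsub : ∀ w, w ∈ Kt t (A1 / L) x1 M → w ∈ Kt t (A1 / L) 1 M := fun w hw =>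
    ⟨hw.1, hw.2.1.trans hx1, hw.2.2⟩
  -- first part
  have p1 : ‖(P z - P z') - (S z t - S z' t)‖ ≤ κ * L / 10 := by
    refine (hE1 z hz z' hz').trans ?_
    have hlog : Real.log (2 + t) ≤ 2 * L := by
      have h1 : 2 + t ≤ T ^ 2 := by nlinarith
      have h2 := Real.log_le_log (by linarith) h1
      rw [Real.log_pow, ← hLd] at h2
      exact_mod_cast h2
    have h3 : C1 * x1 ≤ κ / 20 := by
      calc C1 * x1 ≤ C1 * (κ / (20 * C1)) := by gcongr
        _ = κ / 20 := by field_simp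
    calc C1 * x1 * Real.log (2 + t) ≤ C1 * x1 * (2 * L) := by gcongr
      _ ≤ κ / 20 * (2 * L) := by gcongr
      _ = κ * L / 10 := by ring
  -- truncation
  have p2 : ∀ w ∈ Kt t (A1 / L) x1 M, ‖S w t - SU (L / 16) w t‖ ≤ κ * L / 20 := by
    intro w hw
    refine (hE2 w (hsub w hw)).trans ?_
    have hwre : A1 / L ≤ w.re := hw.1
    have h1 : Real.exp (-(w.re * (L / 16) / 2)) ≤ 1 := by
      apply Real.exp_le_one_iff.2
      have : 0 < w.re := lt_of_lt_of_le hy0 hwre
      have : 0 < w.re * (L / 16) / 2 := by positivity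
      linarith
    have h2 := (Q_mono (U := L / 16) (t := t) hy0 hwre).trans hQ
    have h3 := Q_nonneg (L / 16) w.re t
    have h4 : 0 ≤ C2 * M ^ 2 / (L / 16) := by positivity
    calc C2 * M ^ 2 / (L / 16) * Real.exp (-(w.re * (L / 16) / 2)) * Q (L / 16) w.re t ≤
          C2 * M ^ 2 / (L / 16) * 1 * (κ * L ^ 2 / (320 * C2 * M ^ 2)) := by
          gcongr
      _ = κ * L / 20 := by
          field_simp
          norm_num
  -- the transform
  have hcc : 1 / Real.sqrt (2 * Real.pi) ≤ 1 / 2 := by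
    apply one_div_le_one_div_of_le (by norm_num)
    apply Real.le_sqrt_of_sq_le
    have := Real.pi_gt_three
    linarith
  have hcc0 : 0 ≤ 1 / Real.sqrt (2 * Real.pi) := by positivity
  have p3 : ‖SU (L / 16) z t - SU (L / 16) z' t‖ ≤ κ * L / 20 + κ * L / 10 + κ * L / 10 := by
    refine (SU_diff (U := L / 16) (L := L) (C := C3) (y := A1 / L) (by positivity) hL0.le hy0
      hz.1 hz'.1 hC3.le (fun u h0 h1 => hEF u h0 (by linarith))).trans ?_
    have q1 : ‖z - z'‖ ≤ κ / 10 := by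
      have h1 : |z.re - z'.re| ≤ x1 := by
        rw [abs_le]
        have a1 := hz.1
        have a2 := hz.2.1
        have a3 := hz'.1
        have a4 := hz'.2.1
        constructor <;> linarith
      have h2 : |z.im - z'.im| ≤ 2 * M * x1 := by
        have a1 := hz.2.2
        have a2 := hz'.2.2
        have a3 := hz.2.1
        have a4 := hz'.2.1
        have a5 : M * z.re ≤ M * x1 := by gcongr
        have a6 : M * z'.re ≤ M * x1 := by gcongr
        rw [abs_le] at a1 a2 ⊢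
        constructor <;> linarith [a1.1, a1.2, a2.1, a2.2]
      have h3 : ‖z - z'‖ ≤ |(z - z').re| + |(z - z').im| := Complex.norm_le_abs_re_add_abs_im _
      rw [Complex.sub_re, Complex.sub_im] at h3
      have h4 : (1 + 2 * M) * x1 ≤ κ / 10 := by
        calc (1 + 2 * M) * x1 ≤ (1 + 2 * M) * (κ / (10 * (1 + 2 * M))) := by gcongr
          _ = κ / 10 := by
            have : (1 + 2 * M) ≠ 0 := by positivity
            field_simp
      linarith
    have q2 : ‖Dp (L / 16) z t - Dp (L / 16) z' t‖ ≤ κ * L / 5 := by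
      have h1 := norm_sub_le (Dp (L / 16) z t) (Dp (L / 16) z' t)
      have h2 := hD z (hsub z hz)
      have h3 := hD z' (hsub z' hz')
      linarith
    have q3 : 2 * C3 / (A1 / L) ≤ κ * L / 10 := by
      have h1 : 20 * C3 ≤ A1 * κ := by rwa [div_le_iff₀ hκ] at hA3
      rw [div_le_iff₀ hy0]
      have h2 : κ * L / 10 * (A1 / L) = A1 * κ / 10 := by field_simp
      rw [h2]; linarith
    have r1 : 1 / Real.sqrt (2 * Real.pi) * (L * ‖z - z'‖) ≤ 1 / 2 * (L * (κ / 10)) := by
      gcongr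
    have r2 : 1 / Real.sqrt (2 * Real.pi) * ‖Dp (L / 16) z t - Dp (L / 16) z' t‖ ≤
        1 / 2 * (κ * L / 5) := by gcongr
    linarith
  have t1 : P z - P z' = ((P z - P z') - (S z t - S z' t)) + (S z t - SU (L / 16) z t) -
      (S z' t - SU (L / 16) z' t) + (SU (L / 16) z t - SU (L / 16) z' t) := by ring
  rw [t1]
  have n1 := norm_add_le (((P z - P z') - (S z t - S z' t)) + (S z t - SU (L / 16) z t) -
      (S z' t - SU (L / 16) z' t)) (SU (L / 16) z t - SU (L / 16) z' t)
  have n2 := norm_sub_le (((P z - P z') - (S z t - S z' t)) + (S z t - SU (L / 16) z t))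
      (S z' t - SU (L / 16) z' t)
  have n3 := norm_add_le ((P z - P z') - (S z t - S z' t)) (S z t - SU (L / 16) z t)
  have n4 := p2 z hz
  have n5 := p2 z' hz'
  have n6 : 0 < κ * L := by positivity
  linarith

/-- **small variation of `P` on the cone** -/
theorem var (h1 : S_E1) (h2 : S_E2) (h3 : S_EF) (h4 : S_CONE) (h5 : S_QM) (h6 : S_DALL) :
    S_VAR := by
  intro M κ hM hκ
  obtain ⟨C1, hC1, H1⟩ := h1 M hM
  obtain ⟨C2, hC2, H2⟩ := h2
  obtain ⟨C3, T3, hC3, hT3, H3⟩ := h3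
  obtain ⟨C4, T4, hC4, hT4, H4⟩ := h4 M hM
  obtain ⟨C5, T5, hC5, hT5, H5⟩ := h5
  obtain ⟨C6, T6, hC6, hT6, H6⟩ := h6 M hM
  have hM0 : 0 < M := by linarith
  obtain ⟨x1, hx1d⟩ : ∃ x1, x1 = min 1 (min (κ / (20 * C1)) (κ / (10 * (1 + 2 * M)))) := ⟨_, rfl⟩
  have hx0 : 0 < x1 := by
    rw [hx1d]
    exact lt_min one_pos (lt_min (by positivity) (by positivity))
  have hx1 : x1 ≤ 1 := by rw [hx1d]; exact min_le_left _ _
  have hxa : x1 ≤ κ / (20 * C1) := by
    rw [hx1d]; exact (min_le_right _ _).trans (min_le_left _ _)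
  have hxb : x1 ≤ κ / (10 * (1 + 2 * M)) := by
    rw [hx1d]; exact (min_le_right _ _).trans (min_le_right _ _)
  refine ⟨x1, hx0, hx1, fun ε hε => ?_⟩
  obtain ⟨A1, hA1d⟩ : ∃ A1, A1 = 1 + 20 * C3 / κ + 384 * C4 / ε + 960 * C5 * C2 * M ^ 2 / (κ * ε) +
    300 * C6 / (κ ^ 2 * ε) := ⟨_, rfl⟩
  have a1 : 0 < 20 * C3 / κ := by positivity
  have a2 : 0 < 384 * C4 / ε := by positivity
  have a3 : 0 < 960 * C5 * C2 * M ^ 2 / (κ * ε) := by positivity
  have a4 : 0 < 300 * C6 / (κ ^ 2 * ε) := by positivity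
  have hA1 : 1 ≤ A1 := by linarith
  have hA3 : 20 * C3 / κ ≤ A1 := by linarith
  have hA4 : 384 * C4 / ε ≤ A1 := by linarith
  have hA5 : 960 * C5 * C2 * M ^ 2 / (κ * ε) ≤ A1 := by linarith
  have hA6 : 300 * C6 / (κ ^ 2 * ε) ≤ A1 := by linarith
  clear hA1d
  have hA0 : 0 < A1 := by linarith
  refine ⟨A1, T3 + T4 + T5 + T6 + Real.exp (16 + A1), hA1, ?_, fun T hT => ?_⟩
  · have := Real.exp_pos (16 + A1)
    linarith
  have hexp := Real.exp_pos (16 + A1)
  have hT3' : T3 ≤ T := by linarith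
  have hT4' : T4 ≤ T := by linarith
  have hT5' : T5 ≤ T := by linarith
  have hT6' : T6 ≤ T := by linarith
  have hT10 : 10 ≤ T := by linarith
  have hT0 : 0 < T := by linarith
  have hL : 16 + A1 ≤ Real.log T := by
    rw [Real.le_log_iff_exp_le hT0]
    linarith
  have hL0 : 0 < Real.log T := by linarith
  have hy0 : 0 < A1 / Real.log T := by positivity
  have hy1 : A1 / Real.log T ≤ 1 := by
    rw [div_le_one hL0]; linarith
  have m1 := H4 T hT4' (A1 / Real.log T) hy0
  have m2 := H5 T hT5' (A1 / Real.log T) (κ * Real.log T ^ 2 / (320 * C2 * M ^ 2)) hy0 hy1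
    (by positivity)
  have m3 := H6 T hT6' (A1 / Real.log T) (κ * Real.log T / 10) hy0 (by positivity)
  have hsub : {t : ℝ | t ∈ Icc T (2 * T) ∧ ¬ (CF t (A1 / Real.log T) M ∧
      ∀ z ∈ Kt t (A1 / Real.log T) x1 M, ∀ z' ∈ Kt t (A1 / Real.log T) x1 M,
        ‖P z - P z'‖ ≤ κ * Real.log T)} ⊆
      ({t : ℝ | t ∈ Icc T (2 * T) ∧ ¬ CF t (A1 / Real.log T) M} ∪
        {t : ℝ | t ∈ Icc T (2 * T) ∧ κ * Real.log T ^ 2 / (320 * C2 * M ^ 2) <
          Q (Real.log T / 16) (A1 / Real.log T) t}) ∪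
        {t : ℝ | t ∈ Icc T (2 * T) ∧ ∃ z ∈ Kt t (A1 / Real.log T) 1 M,
          κ * Real.log T / 10 < ‖Dp (Real.log T / 16) z t‖} := by
    intro t ht
    obtain ⟨htT, hbad⟩ := ht
    by_contra hcon
    simp only [mem_union, mem_ofPred_eq, not_or, not_and] at hcon
    obtain ⟨⟨c1, c2⟩, c3⟩ := hcon
    have d1 : CF t (A1 / Real.log T) M := not_not.1 (c1 htT)
    have d2 := not_lt.1 (c2 htT)
    have d3 : ∀ z ∈ Kt t (A1 / Real.log T) 1 M,
        ‖Dp (Real.log T / 16) z t‖ ≤ κ * Real.log T / 10 := by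
      intro z hz
      by_contra hlt
      exact c3 htT ⟨z, hz, not_le.1 hlt⟩
    apply hbad
    refine ⟨d1, fun z hz z' hz' => ?_⟩
    refine good_point hM hκ hC1 hC2 hC3 hx0 hx1 hxa hxb hA1 hA3 hT10 hL htT.1 htT.2 ?_ ?_ ?_
      d2 d3 hz hz'
    · exact H1 t _ x1 (by linarith [htT.1]) hy0 hx1 d1
    · exact H2 M t _ _ hM hy0 (by linarith) d1
    · exact fun u hu0 hu1 => H3 T hT3' t u htT.1 htT.2 hu0 hu1
  -- the measures
  have e1 : C4 * T * Real.exp (-(A1 / Real.log T * Real.log T / 128)) ≤ ε * T / 3 := by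
    have h1 : A1 / Real.log T * Real.log T = A1 := by field_simp
    rw [h1]
    have h2 : Real.exp (-(A1 / 128)) ≤ 128 / A1 := by
      rw [Real.exp_neg, ← one_div, div_le_div_iff₀ (Real.exp_pos _) hA0]
      have := Real.add_one_le_exp (A1 / 128)
      nlinarith
    have h3 : 384 * C4 ≤ A1 * ε := by rwa [div_le_iff₀ hε] at hA4
    calc C4 * T * Real.exp (-(A1 / 128)) ≤ C4 * T * (128 / A1) := by gcongr
      _ = (384 * C4) * T / (3 * A1) := by field_simp; norm_num
      _ ≤ (A1 * ε) * T / (3 * A1) := by gcongr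
      _ = ε * T / 3 := by field_simp
  have e2 : C5 * T * Real.log T / (A1 / Real.log T * (κ * Real.log T ^ 2 / (320 * C2 * M ^ 2))) ≤
      ε * T / 3 := by
    have h3 : 960 * C5 * C2 * M ^ 2 ≤ A1 * (κ * ε) := by
      rwa [div_le_iff₀ (by positivity)] at hA5
    calc C5 * T * Real.log T / (A1 / Real.log T * (κ * Real.log T ^ 2 / (320 * C2 * M ^ 2))) =
          (960 * C5 * C2 * M ^ 2) * T / (3 * A1 * κ) := by
          field_simp
          norm_num
      _ ≤ (A1 * (κ * ε)) * T / (3 * A1 * κ) := by gcongr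
      _ = ε * T / 3 := by field_simp
  have e3 : C6 * T / (A1 / Real.log T * (κ * Real.log T / 10)) ^ 2 ≤ ε * T / 3 := by
    have h3 : 300 * C6 ≤ A1 * (κ ^ 2 * ε) := by
      rwa [div_le_iff₀ (by positivity)] at hA6
    calc C6 * T / (A1 / Real.log T * (κ * Real.log T / 10)) ^ 2 =
          (300 * C6) * T / (3 * A1 ^ 2 * κ ^ 2) := by
          field_simp
          norm_num
      _ ≤ (A1 * (κ ^ 2 * ε)) * T / (3 * A1 ^ 2 * κ ^ 2) := by gcongr
      _ = ε * T / 3 / A1 := by field_simp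
      _ ≤ ε * T / 3 := div_le_self (by positivity) hA1
  refine (measure_mono hsub).trans ?_
  refine (measure_union_le _ _).trans ?_
  refine (add_le_add (measure_union_le _ _) le_rfl).trans ?_
  have f1 := m1.trans (ENNReal.ofReal_le_ofReal e1)
  have f2 := m2.trans (ENNReal.ofReal_le_ofReal e2)
  have f3 := m3.trans (ENNReal.ofReal_le_ofReal e3)
  refine (add_le_add (add_le_add f1 f2) f3).trans ?_
  rw [← ENNReal.ofReal_add (by positivity) (by positivity),
    ← ENNReal.ofReal_add (by positivity) (by positivity)]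
  apply ENNReal.ofReal_le_ofReal
  linarith

end Pool.Agent.H332.HP
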